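import Pool.Agent.Work.MP_f77be9_al.Ratio

set_option autoImplicit false

open Pool.Agent.Work.MP_f77be9_al

namespace Pool.Agent.Results.MP_f77be9_al.Criterion

/-- Criterion for an arbitrary Leonard triple over an arbitrary field `K` and an arbitrary
permutation `x, y, z` of it.  In any basis in which `x` is diagonal and `y, z` are irreducible
tridiagonal, the ratio `y_{i,i+1} y_{i+1,i} / (z_{i,i+1} z_{i+1,i})` does not depend on `i`, and
the antiautomorphism fixing `x` and exchanging the commutators `[x, y]`, `[x, z]` up to scalars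
exists if and only if that ratio is a square in `K`.  In particular it exists if every element of
`K` is a square. -/
theorem result {K V : Type*} [Field K] [AddCommGroup V] [Module K V]
    (T : Fin 3 → Module.End K V) (hT : IsLeonardTriple T) (π : Equiv.Perm (Fin 3)) :
    (∀ (n : ℕ) (b : Module.Basis (Fin n) K V),
      (LinearMap.toMatrix b b (T (π 0))).IsDiag →
      IrredTridiag (LinearMap.toMatrix b b (T (π 1))) →
      IrredTridiag (LinearMap.toMatrix b b (T (π 2))) →
      ∃ κ : K, κ ≠ 0 ∧
        (∀ i j : Fin n, (i : ℕ) + 1 = j →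
          LinearMap.toMatrix b b (T (π 1)) i j * LinearMap.toMatrix b b (T (π 1)) j i =
            κ * (LinearMap.toMatrix b b (T (π 2)) i j *
              LinearMap.toMatrix b b (T (π 2)) j i)) ∧
        (HasSwap (T (π 0)) (T (π 1)) (T (π 2)) ↔ IsSquare κ)) ∧
    ((∀ a : K, IsSquare a) → HasSwap (T (π 0)) (T (π 1)) (T (π 2))) := by
  have e01 : π 0 ≠ π 1 := fun h => absurd (π.injective h) (by decide)
  have e02 : π 0 ≠ π 2 := fun h => absurd (π.injective h) (by decide)
  have e12 : π 1 ≠ π 2 := fun h => absurd (π.injective h) (by decide)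
  have main : ∀ (n : ℕ) (b : Module.Basis (Fin n) K V),
      (LinearMap.toMatrix b b (T (π 0))).IsDiag →
      IrredTridiag (LinearMap.toMatrix b b (T (π 1))) →
      IrredTridiag (LinearMap.toMatrix b b (T (π 2))) →
      ∃ κ : K, κ ≠ 0 ∧
        (∀ i j : Fin n, (i : ℕ) + 1 = j →
          LinearMap.toMatrix b b (T (π 1)) i j * LinearMap.toMatrix b b (T (π 1)) j i =
            κ * (LinearMap.toMatrix b b (T (π 2)) i j *
              LinearMap.toMatrix b b (T (π 2)) j i)) ∧
        (HasSwap (T (π 0)) (T (π 1)) (T (π 2)) ↔ IsSquare κ) := by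
    intro n b hbx hby hbz
    rcases Nat.lt_or_ge n 2 with hn | hn
    · have hvac : ∀ i j : Fin n, (i : ℕ) + 1 = j →
          LinearMap.toMatrix b b (T (π 1)) i j * LinearMap.toMatrix b b (T (π 1)) j i =
            (1 * 1) * (LinearMap.toMatrix b b (T (π 2)) i j *
              LinearMap.toMatrix b b (T (π 2)) j i) := by
        intro i j hij
        have := j.isLt
        omega
      refine ⟨1, one_ne_zero, ?_, ?_⟩
      · intro i j hij
        have := j.isLt
        omega
      · exact ⟨fun _ => ⟨1, (mul_one 1).symm⟩,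
          fun _ => hasSwap_of_isSquare hbx hby hbz 1 one_ne_zero hvac⟩
    obtain ⟨m, u, huy, hu⟩ := hT (π 1)
    obtain ⟨l, v, hvz, hv⟩ := hT (π 2)
    have hm : n = m := by
      have h1 := Module.finrank_eq_card_basis b
      have h2 := Module.finrank_eq_card_basis u
      rw [h1] at h2
      simpa using h2
    have hl : n = l := by
      have h1 := Module.finrank_eq_card_basis b
      have h2 := Module.finrank_eq_card_basis v
      rw [h1] at h2
      simpa using h2
    subst hm
    subst hl
    obtain ⟨κ, hκ, hr⟩ := ratio_const hbx hby hbz huy (hu _ e12.symm) (hu _ e01) hvz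
      (hv _ e12) (hv _ e02)
    refine ⟨κ, hκ, hr, ?_, ?_⟩
    · intro h
      obtain ⟨c, hc⟩ := isSquare_of_hasSwap hbx (eig_inj hbx (hu _ e01)) h
      refine ⟨c, ?_⟩
      have h1 := hr ⟨0, by omega⟩ ⟨1, by omega⟩ rfl
      have h2 := hc ⟨0, by omega⟩ ⟨1, by omega⟩ rfl
      rw [h1] at h2
      exact mul_right_cancel₀ (mul_ne_zero (hbz.2 _ _ (Or.inl rfl)) (hbz.2 _ _ (Or.inr rfl))) h2
    · rintro ⟨c, rfl⟩
      exact hasSwap_of_isSquare hbx hby hbz c (left_ne_zero_of_mul hκ) hr
  refine ⟨main, fun hsq => ?_⟩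
  obtain ⟨n, b, hbx, hb⟩ := hT (π 0)
  obtain ⟨κ, -, -, h⟩ := main n b hbx (hb _ e01.symm) (hb _ e02.symm)
  exact h.mpr (hsq κ)

end Pool.Agent.Results.MP_f77be9_al.Criterion
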