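import Pool.Agent.Work.MP_f77be9_al.Defs

set_option autoImplicit false

open Pool.Agent.Work.MP_f77be9_al

namespace Pool.Agent.Results.MP_f77be9_al.Disproof

/-- The first matrix. -/
def X : Matrix (Fin 2) (Fin 2) ℚ := !![1, 0; 0, -1]
/-- The second matrix. -/
def Y : Matrix (Fin 2) (Fin 2) ℚ := !![1, 1; 3, -1]
/-- The third matrix. -/
def Z : Matrix (Fin 2) (Fin 2) ℚ := !![1, 1; 8, -1]

/-- The triple. -/
noncomputable def T : Fin 3 → Module.End ℚ (Fin 2 → ℚ) :=
  ![Matrix.toLin' X, Matrix.toLin' Y, Matrix.toLin' Z]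

lemma toMatrix_of {b : Module.Basis (Fin 2) ℚ (Fin 2 → ℚ)} {v : Fin 2 → Fin 2 → ℚ}
    (hb : ∀ j, b j = v j) (A N : Matrix (Fin 2) (Fin 2) ℚ)
    (h : ∀ j, A.mulVec (v j) = ∑ i, N i j • v i) :
    LinearMap.toMatrix b b (Matrix.toLin' A) = N := by
  rw [← LinearMap.toMatrix_toLin b b N]
  congr 1
  apply b.ext
  intro j
  rw [Matrix.toLin_self, Matrix.toLin'_apply, hb, h]
  simp [hb]

lemma irred_two (N : Matrix (Fin 2) (Fin 2) ℚ) (h1 : N 0 1 ≠ 0) (h2 : N 1 0 ≠ 0) :
    IrredTridiag N := by
  constructor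
  · intro i j h
    have := i.isLt
    have := j.isLt
    omega
  · intro i j h
    fin_cases i <;> fin_cases j <;> simp_all

lemma diag_two (N : Matrix (Fin 2) (Fin 2) ℚ) (h1 : N 0 1 = 0) (h2 : N 1 0 = 0) :
    N.IsDiag := by
  intro i j h
  fin_cases i <;> fin_cases j <;> simp_all

lemma exists_basis (p q : ℚ) (h : p ≠ q) : ∃ b : Module.Basis (Fin 2) ℚ (Fin 2 → ℚ),
    ∀ j, b j = (![![1, p], ![1, q]] : Fin 2 → Fin 2 → ℚ) j := by
  have hli : LinearIndependent ℚ (![![1, p], ![1, q]] : Fin 2 → Fin 2 → ℚ) := by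
    rw [LinearIndependent.pair_iff]
    intro s t hst
    have h0 := congrFun hst 0
    have h1 := congrFun hst 1
    simp at h0 h1
    have : t * (q - p) = 0 := by linear_combination h1 - p * h0
    rcases mul_eq_zero.mp this with h2 | h2
    · exact ⟨by linear_combination h0 - h2, h2⟩
    · exact absurd (sub_eq_zero.mp h2).symm h
  refine ⟨basisOfLinearIndependentOfCardEqFinrank hli (by simp), fun j => ?_⟩
  simp

lemma leonard : IsLeonardTriple T := by
  intro i
  fin_cases i
  · refine ⟨2, Pi.basisFun ℚ (Fin 2), ?_, ?_⟩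
    · apply diag_two <;> simp [T, X, Matrix.mulVec, dotProduct]
    · intro j hj
      fin_cases j
      · simp at hj
      · apply irred_two <;> simp [T, Y, Matrix.mulVec, dotProduct]
      · apply irred_two <;> simp [T, Z, Matrix.mulVec, dotProduct]
  · obtain ⟨b, hb⟩ := exists_basis 1 (-3) (by norm_num)
    refine ⟨2, b, ?_, ?_⟩
    · have := toMatrix_of hb Y !![2, 0; 0, -2] (by
        intro j
        fin_cases j <;> ext i <;> fin_cases i <;> simp [Y, Matrix.mulVec, dotProduct] <;> norm_num)
      simp only [T]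
      change (LinearMap.toMatrix b b (Matrix.toLin' Y)).IsDiag
      rw [this]
      apply diag_two <;> simp
    · intro j hj
      fin_cases j
      · have := toMatrix_of hb X !![1/2, 3/2; 1/2, -1/2] (by
          intro j
          fin_cases j <;> ext i <;> fin_cases i <;>
            simp [X, Matrix.mulVec, dotProduct] <;> norm_num)
        change IrredTridiag (LinearMap.toMatrix b b (Matrix.toLin' X))
        rw [this]
        apply irred_two <;> simp
      · simp at hj
      · have := toMatrix_of hb Z !![13/4, 5/4; -5/4, -13/4] (by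
          intro j
          fin_cases j <;> ext i <;> fin_cases i <;>
            simp [Z, Matrix.mulVec, dotProduct] <;> norm_num)
        change IrredTridiag (LinearMap.toMatrix b b (Matrix.toLin' Z))
        rw [this]
        apply irred_two <;> simp
  · obtain ⟨b, hb⟩ := exists_basis 2 (-4) (by norm_num)
    refine ⟨2, b, ?_, ?_⟩
    · have := toMatrix_of hb Z !![3, 0; 0, -3] (by
        intro j
        fin_cases j <;> ext i <;> fin_cases i <;> simp [Z, Matrix.mulVec, dotProduct] <;> norm_num)
      change (LinearMap.toMatrix b b (Matrix.toLin' Z)).IsDiag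
      rw [this]
      apply diag_two <;> simp
    · intro j hj
      fin_cases j
      · have := toMatrix_of hb X !![1/3, 4/3; 2/3, -1/3] (by
          intro j
          fin_cases j <;> ext i <;> fin_cases i <;>
            simp [X, Matrix.mulVec, dotProduct] <;> norm_num)
        change IrredTridiag (LinearMap.toMatrix b b (Matrix.toLin' X))
        rw [this]
        apply irred_two <;> simp
      · have := toMatrix_of hb Y !![13/6, -5/6; 5/6, -13/6] (by
          intro j
          fin_cases j <;> ext i <;> fin_cases i <;>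
            simp [Y, Matrix.mulVec, dotProduct] <;> norm_num)
        change IrredTridiag (LinearMap.toMatrix b b (Matrix.toLin' Y))
        rw [this]
        apply irred_two <;> simp
      · simp at hj

lemma no_swap (x y z : Module.End ℚ (Fin 2 → ℚ)) (p q : ℚ)
    (hp : (x * y - y * x) * (x * y - y * x) = p • (1 : Module.End ℚ (Fin 2 → ℚ)))
    (hq : (x * z - z * x) * (x * z - z * x) = q • (1 : Module.End ℚ (Fin 2 → ℚ)))
    (h : ∀ c : ℚ, p ≠ c ^ 2 * q) : ¬ HasSwap x y z := by
  rintro ⟨σ, hσ, -, ⟨c, hc⟩, -⟩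
  have h1 : σ 1 = 1 := by
    have h2 : ∀ X, σ 1 * X = X := by
      intro X
      obtain ⟨W, rfl⟩ := σ.surjective X
      rw [← hσ, mul_one]
    simpa using h2 1
  have h3 := congrArg σ hp
  rw [hσ, hc, map_smul, h1, smul_mul_smul_comm, hq, smul_smul] at h3
  apply h c
  have h4 := congrArg (fun f : Module.End ℚ (Fin 2 → ℚ) => f (fun _ => 1) 0) h3
  simp at h4
  rw [← h4]
  ring

lemma comm_sq (A B C : Matrix (Fin 2) (Fin 2) ℚ) (p : ℚ) (hC : C = A * B - B * A)
    (h : C * C = p • (1 : Matrix (Fin 2) (Fin 2) ℚ)) :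
    (Matrix.toLin' A * Matrix.toLin' B - Matrix.toLin' B * Matrix.toLin' A) *
      (Matrix.toLin' A * Matrix.toLin' B - Matrix.toLin' B * Matrix.toLin' A) =
      p • (1 : Module.End ℚ (Fin 2 → ℚ)) := by
  have h1 : Matrix.toLin' A * Matrix.toLin' B - Matrix.toLin' B * Matrix.toLin' A =
      Matrix.toLin' C := by
    rw [hC, map_sub, Matrix.toLin'_mul, Matrix.toLin'_mul]
    rfl
  rw [h1]
  have h2 : Matrix.toLin' C * Matrix.toLin' C = Matrix.toLin' (C * C) := by
    rw [Matrix.toLin'_mul]
    rfl
  rw [h2, h, map_smul, Matrix.toLin'_one]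
  rfl

/-- Over the rational numbers there is a Leonard triple on a two-dimensional space such that for
none of the six permutations `x, y, z` of the triple is there an antiautomorphism of `End V`
fixing `x` and sending each of `[x, y]`, `[x, z]` to a scalar multiple of the other one. -/
theorem result : ∃ T : Fin 3 → Module.End ℚ (Fin 2 → ℚ), IsLeonardTriple T ∧
    ∀ π : Equiv.Perm (Fin 3), ¬ HasSwap (T (π 0)) (T (π 1)) (T (π 2)) := by
  refine ⟨T, leonard, ?_⟩
  have hxy := comm_sq X Y !![0, 2; -6, 0] (-12) (by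
    ext i j; fin_cases i <;> fin_cases j <;> simp [X, Y] <;> norm_num) (by
    ext i j; fin_cases i <;> fin_cases j <;> simp [Matrix.mul_apply]; all_goals norm_num)
  have hyx := comm_sq Y X !![0, -2; 6, 0] (-12) (by
    ext i j; fin_cases i <;> fin_cases j <;> simp [X, Y] <;> norm_num) (by
    ext i j; fin_cases i <;> fin_cases j <;> simp [Matrix.mul_apply]; all_goals norm_num)
  have hxz := comm_sq X Z !![0, 2; -16, 0] (-32) (by
    ext i j; fin_cases i <;> fin_cases j <;> simp [X, Z] <;> norm_num) (by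
    ext i j; fin_cases i <;> fin_cases j <;> simp [Matrix.mul_apply]; all_goals norm_num)
  have hzx := comm_sq Z X !![0, -2; 16, 0] (-32) (by
    ext i j; fin_cases i <;> fin_cases j <;> simp [X, Z] <;> norm_num) (by
    ext i j; fin_cases i <;> fin_cases j <;> simp [Matrix.mul_apply]; all_goals norm_num)
  have hyz := comm_sq Y Z !![5, 0; -10, -5] 25 (by
    ext i j; fin_cases i <;> fin_cases j <;> simp [Y, Z] <;> norm_num) (by
    ext i j; fin_cases i <;> fin_cases j <;> simp [Matrix.mul_apply]; all_goals norm_num)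
  have hzy := comm_sq Z Y !![-5, 0; 10, 5] 25 (by
    ext i j; fin_cases i <;> fin_cases j <;> simp [Y, Z] <;> norm_num) (by
    ext i j; fin_cases i <;> fin_cases j <;> simp [Matrix.mul_apply]; all_goals norm_num)
  have s1 : ¬ IsSquare (3 / 8 : ℚ) := by norm_num
  have s2 : ¬ IsSquare (8 / 3 : ℚ) := by norm_num
  have h0 : T 0 = Matrix.toLin' X := rfl
  have h1 : T 1 = Matrix.toLin' Y := rfl
  have h2 : T 2 = Matrix.toLin' Z := rfl
  intro π
  have e01 : π 0 ≠ π 1 := fun h => absurd (π.injective h) (by decide)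
  have e02 : π 0 ≠ π 2 := fun h => absurd (π.injective h) (by decide)
  have e12 : π 1 ≠ π 2 := fun h => absurd (π.injective h) (by decide)
  generalize π 0 = a at *
  generalize π 1 = b at *
  generalize π 2 = c at *
  have cases3 : ∀ i : Fin 3, i = 0 ∨ i = 1 ∨ i = 2 := by decide
  rcases cases3 a with rfl | rfl | rfl <;> rcases cases3 b with rfl | rfl | rfl <;>
    rcases cases3 c with rfl | rfl | rfl <;> first | contradiction | skip
  · rw [h0, h1, h2]
    refine no_swap _ _ _ _ _ hxy hxz fun c hc => s1 ⟨c, ?_⟩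
    linear_combination (-1 / 32) * hc
  · rw [h0, h1, h2]
    refine no_swap _ _ _ _ _ hxz hxy fun c hc => s2 ⟨c, ?_⟩
    linear_combination (-1 / 12) * hc
  · rw [h0, h1, h2]
    refine no_swap _ _ _ _ _ hyx hyz fun c hc => ?_
    nlinarith [sq_nonneg c]
  · rw [h0, h1, h2]
    refine no_swap _ _ _ _ _ hyz hyx fun c hc => ?_
    nlinarith [sq_nonneg c]
  · rw [h0, h1, h2]
    refine no_swap _ _ _ _ _ hzx hzy fun c hc => ?_
    nlinarith [sq_nonneg c]
  · rw [h0, h1, h2]
    refine no_swap _ _ _ _ _ hzy hzx fun c hc => ?_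
    nlinarith [sq_nonneg c]

end Pool.Agent.Results.MP_f77be9_al.Disproof
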